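import Mathlib

set_option autoImplicit false

namespace Pool.Agent.H.MP_604c02_co

open Nat

/-- hypergeometric weight of the table with rows (x, y) and (z, w) -/
noncomputable def P (x y z w : ℕ) : ℝ :=
  (((x + y)! : ℝ) * (z + w)! * (x + z)! * (y + w)!) /
    (((x + y + z + w)! : ℝ) * x ! * y ! * z ! * w !)

lemma P_col (x y z w : ℕ) : P x y z w = P y x w z := by
  unfold P
  rw [show y + x = x + y by ring, show w + z = z + w by ring,
    show x + y + w + z = x + y + z + w by ring]
  congr 1 <;> ring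

lemma P_row (x y z w : ℕ) : P x y z w = P z w x y := by
  unfold P
  rw [show z + x = x + z by ring, show w + y = y + w by ring,
    show z + w + x + y = x + y + z + w by ring]
  congr 1 <;> ring

lemma P_pos (x y z w : ℕ) : 0 < P x y z w := by
  unfold P
  positivity

lemma move (x y z w : ℕ) (h : y * z ≤ (x + 1) * w) : P (x + 1) y z w ≤ P x y z w := by
  have e : P (x + 1) y z w = P x y z w *
      ((((x : ℝ) + y + 1) * (x + z + 1)) / (((x : ℝ) + y + z + w + 1) * (x + 1))) := by
    unfold P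
    rw [show x + 1 + y = (x + y) + 1 by ring, show x + 1 + z = (x + z) + 1 by ring,
      show x + y + 1 + z + w = (x + y + z + w) + 1 by ring]
    simp only [Nat.factorial_succ]
    push_cast
    field_simp
  rw [e]
  have h' : (y : ℝ) * z ≤ ((x : ℝ) + 1) * w := by exact_mod_cast h
  have h1 : (((x : ℝ) + y + 1) * (x + z + 1)) / (((x : ℝ) + y + z + w + 1) * (x + 1)) ≤ 1 := by
    rw [div_le_one (by positivity)]
    nlinarith
  have := P_pos x y z w
  nlinarith

lemma choose_eq (x y z w : ℕ) :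
    (((x + z).choose x : ℕ) : ℝ) * ((y + w).choose y : ℕ) =
      P x y z w * ((x + y + z + w).choose (x + y) : ℕ) := by
  unfold P
  rw [Nat.cast_choose ℝ (Nat.le_add_right x z), Nat.cast_choose ℝ (Nat.le_add_right y w),
    Nat.cast_choose ℝ (show x + y ≤ x + y + z + w by omega),
    show x + z - x = z by omega, show y + w - y = w by omega,
    show x + y + z + w - (x + y) = z + w by omega]
  field_simp

lemma P_le_of (x y z w p q : ℕ) (hq : 0 < q)
    (h : q * ((x + z).choose x * (y + w).choose y) ≤ p * (x + y + z + w).choose (x + y)) :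
    P x y z w ≤ (p : ℝ) / q := by
  have hc : (0 : ℝ) < ((x + y + z + w).choose (x + y) : ℕ) := by
    exact_mod_cast Nat.choose_pos (by omega)
  have h' : (q : ℝ) * ((((x + z).choose x : ℕ) : ℝ) * ((y + w).choose y : ℕ)) ≤
      p * ((x + y + z + w).choose (x + y) : ℕ) := by exact_mod_cast h
  rw [choose_eq] at h'
  have hq' : (0 : ℝ) < q := by exact_mod_cast hq
  rw [le_div_iff₀ hq']
  have : (P x y z w * q) * ((x + y + z + w).choose (x + y) : ℕ) ≤
      p * ((x + y + z + w).choose (x + y) : ℕ) := by linarith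
  exact le_of_mul_le_mul_right this hc

lemma row2 (x y s : ℕ) (c : ℝ) (h : ∀ z w, z + w = s → P x y z w ≤ c) :
    ∀ t z w, z + w = s + t → P x y z w ≤ c := by
  intro t
  induction t with
  | zero => simpa using h
  | succ t ih =>
    intro z w hzw
    rcases z with _ | z
    · obtain ⟨w, rfl⟩ : ∃ v, w = v + 1 := ⟨w - 1, by omega⟩
      have := move w 0 y x (by simp)
      rw [P_col, P_row]
      refine this.trans ?_
      rw [← P_row, ← P_col]
      exact ih _ _ (by omega)
    rcases w with _ | w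
    · have := move z 0 x y (by simp)
      rw [P_row]
      refine this.trans ?_
      rw [← P_row]
      exact ih _ _ (by omega)
    rcases le_total ((w + 1) * x) ((z + 1) * y) with h1 | h1
    · have := move z (w + 1) x y h1
      rw [P_row]
      refine this.trans ?_
      rw [← P_row]
      exact ih _ _ (by omega)
    · have := move w (z + 1) y x h1
      rw [P_col, P_row]
      refine this.trans ?_
      rw [← P_row, ← P_col]
      exact ih _ _ (by omega)

lemma row2' (x y s : ℕ) (c : ℝ) (h : ∀ z w, z + w = s → P x y z w ≤ c) (z w : ℕ)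
    (hs : s ≤ z + w) : P x y z w ≤ c :=
  row2 x y s c h (z + w - s) z w (by omega)

lemma upper (c : ℝ) (k d r0 : ℕ)
    (hbase : ∀ x y z w, 2 ≤ x → 2 ≤ y → x + y = r0 → z + w = k * r0 + d → P x y z w ≤ c)
    (hexp : ∀ y z w, r0 < y + 2 → z + w = k * (y + 2) + d → y * z ≤ 2 * w → P 2 y z w ≤ c) :
    ∀ t x y z w, 2 ≤ x → 2 ≤ y → x + y = r0 + t → k * (r0 + t) + d ≤ z + w → P x y z w ≤ c := by
  intro t
  induction t with
  | zero =>
    intro x y z w hx hy hxy hs
    exact row2' x y _ c (fun z w h => hbase x y z w hx hy (by omega) h) z w (by simpa using hs)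
  | succ t ih =>
    have key : ∀ x y z w, 2 ≤ x → 2 ≤ y → x + y = r0 + (t + 1) →
        z + w = k * (r0 + (t + 1)) + d → y * z ≤ x * w → P x y z w ≤ c := by
      intro x y z w hx hy hxy hs h1
      rcases Nat.lt_or_ge 2 x with h2 | h2
      · obtain ⟨x, rfl⟩ : ∃ v, x = v + 1 := ⟨x - 1, by omega⟩
        refine (move x y z w h1).trans (ih x y z w (by omega) hy (by omega) ?_)
        rw [hs]
        have : k * (r0 + t) ≤ k * (r0 + (t + 1)) := Nat.mul_le_mul_left _ (by omega)
        omega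
      · obtain rfl : x = 2 := by omega
        refine hexp y z w (by omega) ?_ h1
        rw [hs, show y + 2 = r0 + (t + 1) by omega]
    intro x y z w hx hy hxy hs
    refine row2' x y _ c (fun z w h => ?_) z w hs
    rcases le_total (y * z) (x * w) with h1 | h1
    · exact key x y z w hx hy hxy h h1
    · rw [P_col]
      exact key y x w z hy hx (by omega) (by omega) h1

lemma P_two_le (y z w p q : ℕ) (hq : 0 < q)
    (h : q * ((z + 2) * (z + 1) * ((y + 1) * (y + 2)) * (w + 1).ascFactorial z) ≤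
      2 * p * (y + w + 1).ascFactorial (z + 2)) : P 2 y z w ≤ (p : ℝ) / q := by
  have hq' : (0 : ℝ) < q := by exact_mod_cast hq
  unfold P
  rw [show 2 + y + z + w = (y + w) + (z + 2) by ring, show z + w = w + z by ring,
    ← Nat.factorial_mul_ascFactorial (y + w) (z + 2), ← Nat.factorial_mul_ascFactorial w z,
    show 2 + y = y + 1 + 1 by ring, show 2 + z = z + 1 + 1 by ring]
  simp only [Nat.factorial_succ, Nat.factorial_zero]
  have h' : (q : ℝ) * (((z : ℝ) + 2) * (z + 1) * ((y + 1) * (y + 2)) *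
      ((w + 1).ascFactorial z : ℕ)) ≤ 2 * p * ((y + w + 1).ascFactorial (z + 2) : ℕ) := by
    exact_mod_cast h
  have hp : (0 : ℝ) < ((y + w + 1).ascFactorial (z + 2) : ℕ) := by
    exact_mod_cast Nat.ascFactorial_pos _ _
  rw [div_le_div_iff₀ (by positivity) hq']
  push_cast
  have hpos : (0 : ℝ) < (y ! : ℝ) * z ! * w ! * (y + w)! := by positivity
  have := mul_le_mul_of_nonneg_left h' hpos.le
  nlinarith

def ch (n k : ℕ) : ℕ := n.descFactorial k / k.factorial

lemma ch_eq (n k : ℕ) : ch n k = n.choose k :=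
  (Nat.choose_eq_descFactorial_div_factorial n k).symm

lemma chk1 : ∀ x < 9, ∀ z < 12, 2 ≤ x → 9 * (ch (x + z) x * ch (10 - x + (11 - z)) (10 - x)) ≤
    4 * ch 21 10 := by decide +kernel

lemma chk2 : ∀ x < 9, ∀ z < 21, 2 ≤ x →
    5000 * (ch (x + z) x * ch (10 - x + (20 - z)) (10 - x)) ≤ 1839 * ch 30 10 := by decide +kernel

def g3 (r x z : ℕ) : Bool :=
  if 4 ≤ r ∧ 2 ≤ x ∧ x + 2 ≤ r ∧ z + r ≤ 24 then
    decide (r ^ (r - 1) * (ch (x + z) x * ch (24 - (x + z)) (r - x)) ≤
      (r - 1) ^ (r - 1) * ch 24 r) else true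

def g4 (n r x a : ℕ) : Bool :=
  if 4 ≤ r ∧ 2 * r < n ∧ 2 ≤ x ∧ x + 2 ≤ r ∧ a ≤ n then
    decide (ch a x * ch (n - a) (r - x) ≤ ch (n - n / r) (r - 1) * (n / r)) else true

lemma chk3' : ∀ r < 10, ∀ x < 9, ∀ z < 21, g3 r x z = true := by decide +kernel

lemma chk4' : ∀ n < 24, ∀ r < 10, ∀ x < 9, ∀ a < 24, g4 n r x a = true := by decide +kernel

lemma chk3 : ∀ r < 10, ∀ x < 9, ∀ z < 21, 4 ≤ r → 2 ≤ x → x + 2 ≤ r → z + r ≤ 24 →
    r ^ (r - 1) * (ch (x + z) x * ch (24 - (x + z)) (r - x)) ≤ (r - 1) ^ (r - 1) * ch 24 r := by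
  intro r hr x hx z hz h1 h2 h3 h4
  have := chk3' r hr x hx z hz
  unfold g3 at this
  rw [if_pos ⟨h1, h2, h3, h4⟩] at this
  exact of_decide_eq_true this

lemma chk4 : ∀ n < 24, ∀ r < 10, ∀ x < 9, ∀ a < 24, 4 ≤ r → 2 * r < n → 2 ≤ x → x + 2 ≤ r →
    a ≤ n → ch a x * ch (n - a) (r - x) ≤ ch (n - n / r) (r - 1) * (n / r) := by
  intro n hn r hr x hx a ha h1 h2 h3 h4 h5
  have := chk4' n hn r hr x hx a ha
  unfold g4 at this
  rw [if_pos ⟨h1, h2, h3, h4, h5⟩] at this
  exact of_decide_eq_true this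

lemma upper1 (x y z w : ℕ) (hx : 2 ≤ x) (hy : 2 ≤ y) (hr : 10 ≤ x + y) (hs : x + y + 1 ≤ z + w) :
    P x y z w ≤ ((4 : ℕ) : ℝ) / (9 : ℕ) := by
  refine upper _ 1 1 10 ?_ ?_ (x + y - 10) x y z w hx hy (by omega) (by omega)
  · intro x y z w hx hy hxy hs
    refine P_le_of x y z w 4 9 (by norm_num) ?_
    have := chk1 x (by omega) z (by omega) hx
    simp only [ch_eq] at this
    rw [show x + y + z + w = 21 by omega, hxy, show y = 10 - x by omega, show w = 11 - z by omega]
    exact this
  · intro y z w hy hs h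
    refine P_two_le y z w 4 9 (by norm_num) ?_
    obtain ⟨t, rfl⟩ : ∃ t, y = t + 9 := ⟨y - 9, by omega⟩
    have hz : z ≤ 2 := by
      by_contra! hz
      have : (t + 9) * 3 ≤ (t + 9) * z := Nat.mul_le_mul_left _ hz
      omega
    interval_cases z
    · obtain rfl : w = t + 12 := by omega
      simp only [Nat.ascFactorial_succ, Nat.ascFactorial_zero]
      nlinarith [Nat.zero_le (t ^ 2)]
    · obtain rfl : w = t + 11 := by omega
      simp only [Nat.ascFactorial_succ, Nat.ascFactorial_zero]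
      nlinarith [Nat.zero_le (t ^ 2), Nat.zero_le (t ^ 3)]
    · obtain rfl : w = t + 10 := by omega
      simp only [Nat.ascFactorial_succ, Nat.ascFactorial_zero]
      nlinarith [Nat.zero_le (t ^ 2), Nat.zero_le (t ^ 3), Nat.zero_le (t ^ 4)]

lemma upper2 (x y z w : ℕ) (hx : 2 ≤ x) (hy : 2 ≤ y) (hr : 10 ≤ x + y)
    (hs : 2 * (x + y) ≤ z + w) : P x y z w ≤ ((1839 : ℕ) : ℝ) / (5000 : ℕ) := by
  refine upper _ 2 0 10 ?_ ?_ (x + y - 10) x y z w hx hy (by omega) (by omega)
  · intro x y z w hx hy hxy hs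
    refine P_le_of x y z w 1839 5000 (by norm_num) ?_
    have := chk2 x (by omega) z (by omega) hx
    simp only [ch_eq] at this
    rw [show x + y + z + w = 30 by omega, hxy, show y = 10 - x by omega, show w = 20 - z by omega]
    exact this
  · intro y z w hy hs h
    refine P_two_le y z w 1839 5000 (by norm_num) ?_
    obtain ⟨t, rfl⟩ : ∃ t, y = t + 9 := ⟨y - 9, by omega⟩
    have hz : z ≤ 4 := by
      by_contra! hz
      have : (t + 9) * 5 ≤ (t + 9) * z := Nat.mul_le_mul_left _ hz
      omega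
    interval_cases z
    · obtain rfl : w = 2 * t + 22 := by omega
      simp only [Nat.ascFactorial_succ, Nat.ascFactorial_zero]
      refine Nat.le.intro (k := 2783968 + 507210 * t + 23102 * t ^ 2) (by ring)
    · obtain rfl : w = 2 * t + 21 := by omega
      simp only [Nat.ascFactorial_succ, Nat.ascFactorial_zero]
      refine Nat.le.intro (k := 47803008 + 13425414 * t + 1257792 * t ^ 2 + 39306 * t ^ 3)
        (by ring)
    · obtain rfl : w = 2 * t + 20 := by omega
      simp only [Nat.ascFactorial_succ, Nat.ascFactorial_zero]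
      refine Nat.le.intro (k := 562890240 + 228051444 * t + 34510002 * t ^ 2 + 2312556 * t ^ 3
        + 57918 * t ^ 4) (by ring)
    · obtain rfl : w = 2 * t + 19 := by omega
      simp only [Nat.ascFactorial_succ, Nat.ascFactorial_zero]
      refine Nat.le.intro (k := 3110616960 + 2303642596 * t + 597624390 * t ^ 2 + 72234130 * t ^ 3
        + 4177290 * t ^ 4 + 93754 * t ^ 5) (by ring)
    · obtain rfl : w = 2 * t + 18 := by omega
      simp only [Nat.ascFactorial_succ, Nat.ascFactorial_zero]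
      refine Nat.le.intro (k := 36277274880 + 49589843568 * t + 19020210708 * t ^ 2
        + 3374628810 * t ^ 3 + 312666510 * t ^ 4 + 14756982 * t ^ 5 + 281262 * t ^ 6) (by ring)

lemma upper3 (x y z w : ℕ) (hx : 2 ≤ x) (hy : 2 ≤ y) (hr : x + y < 10)
    (hs : 24 ≤ x + y + z + w) :
    P x y z w ≤ (((x + y - 1) ^ (x + y - 1) : ℕ) : ℝ) / ((x + y) ^ (x + y - 1) : ℕ) := by
  refine row2' x y (24 - (x + y)) _ (fun z w h => ?_) z w (by omega)
  refine P_le_of x y z w _ _ (by positivity) ?_
  have := chk3 (x + y) hr x (by omega) z (by omega) (by omega) hx (by omega) (by omega)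
  simp only [ch_eq] at this
  rw [show x + y + z + w = 24 by omega, show y + w = 24 - (x + z) by omega]
  rw [show x + y - x = y by omega] at this
  exact this

lemma prod_low (Y z w : ℕ) (h : Y * z ≤ w) : ∀ y : ℕ,
    Y ^ y * ((y + z + w)! * w !) ≤ (Y + 1) ^ y * ((y + w)! * (z + w)!) := by
  intro y
  induction y with
  | zero => simp [mul_comm]
  | succ y ih =>
    rw [show y + 1 + z + w = (y + z + w) + 1 by ring, show y + 1 + w = (y + w) + 1 by ring]
    simp only [Nat.factorial_succ, pow_succ]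
    have h1 : Y * (y + z + w + 1) ≤ (Y + 1) * (y + w + 1) := by nlinarith
    calc _ = (Y * (y + z + w + 1)) * (Y ^ y * ((y + z + w)! * w !)) := by ring
      _ ≤ ((Y + 1) * (y + w + 1)) * ((Y + 1) ^ y * ((y + w)! * (z + w)!)) :=
        Nat.mul_le_mul h1 ih
      _ = _ := by ring

lemma low_diag (y z : ℕ) : ((y ^ y : ℕ) : ℝ) / ((y + 1) ^ y : ℕ) ≤ P 1 y z (z * y) := by
  have h := prod_low y z (z * y) (by rw [mul_comm]) y
  have h' : ((y ^ y : ℕ) : ℝ) * (((y + z + z * y)! : ℝ) * (z * y)!) ≤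
      ((y + 1) ^ y : ℕ) * (((y + z * y)! : ℝ) * (z + z * y)!) := by exact_mod_cast h
  unfold P
  rw [show 1 + y + z + z * y = (y + z + z * y) + 1 by ring, show 1 + y = y + 1 by ring,
    show 1 + z = z + 1 by ring]
  simp only [Nat.factorial_succ, Nat.factorial_zero]
  rw [div_le_div_iff₀ (by positivity) (by positivity)]
  have hpos : (0 : ℝ) < (y ! : ℝ) * z ! * ((y + 1) * (z + 1)) := by positivity
  have := mul_le_mul_of_nonneg_left h' hpos.le
  generalize ((y ^ y : ℕ) : ℝ) = A at *
  generalize (((y + 1) ^ y : ℕ) : ℝ) = B at *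
  push_cast
  nlinarith

lemma low (y z t : ℕ) (ht : t ≤ y) :
    ((y ^ y : ℕ) : ℝ) / ((y + 1) ^ y : ℕ) ≤ P 1 y z (z * y + t) := by
  have h1 : ∀ i, P 1 y z (z * y + t + i) ≤ P 1 y z (z * y + t) := by
    intro i
    induction i with
    | zero => simp
    | succ i ih =>
      refine le_trans ?_ ih
      have := move (z * y + t + i) z y 1 (by omega)
      rw [P_col, P_row, P_col 1, P_row y 1]
      exact this
  have h2 := h1 (y - t)
  rw [show z * y + t + (y - t) = (z + 1) * y by rw [add_mul]; omega] at h2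
  have h3 := move z ((z + 1) * y) 1 y (by omega)
  rw [P_row (z + 1), P_row z] at h3
  exact (low_diag y (z + 1)).trans (h3.trans h2)

lemma low_e (y : ℕ) (hy : 0 < y) :
    ((1839 : ℕ) : ℝ) / (5000 : ℕ) ≤ ((y ^ y : ℕ) : ℝ) / ((y + 1) ^ y : ℕ) := by
  have hy' : (0 : ℝ) < y := by exact_mod_cast hy
  have h1 : (1 / (y : ℝ) + 1) ^ y ≤ Real.exp 1 := by
    calc _ ≤ (Real.exp (1 / y)) ^ y :=
          pow_le_pow_left₀ (by positivity) (Real.add_one_le_exp _) _
      _ = _ := by
        rw [← Real.exp_nat_mul]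
        congr 1
        field_simp
  have h2 := Real.exp_one_lt_d9
  have h3 : ((y : ℝ) + 1) ^ y = (1 / (y : ℝ) + 1) ^ y * y ^ y := by
    rw [← mul_pow]
    congr 1
    field_simp
    ring
  rw [div_le_div_iff₀ (by positivity) (by positivity)]
  push_cast
  rw [h3]
  have h4 : (0 : ℝ) < (y : ℝ) ^ y := by positivity
  nlinarith

lemma low_two (y w : ℕ) (h1 : y ≤ w) (h2 : w ≤ 2 * y) :
    ((4 : ℕ) : ℝ) / (9 : ℕ) ≤ P 1 y 1 w := by
  unfold P
  rw [show 1 + y + 1 + w = (y + w) + 1 + 1 by ring, show 1 + y = y + 1 by ring,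
    show 1 + w = w + 1 by ring]
  simp only [Nat.factorial_succ, Nat.factorial_zero]
  rw [div_le_div_iff₀ (by positivity) (by positivity)]
  have h1' : (y : ℝ) ≤ w := by exact_mod_cast h1
  have h2' : (w : ℝ) ≤ 2 * y := by exact_mod_cast h2
  have hy : (0 : ℝ) ≤ y := by positivity
  have h3 : 4 * (((y : ℝ) + w + 2) * (y + w + 1)) ≤ 18 * ((y + 1) * (w + 1)) := by
    nlinarith [mul_nonneg (sub_nonneg.2 h1') (sub_nonneg.2 h2')]
  have hpos : (0 : ℝ) < (y ! : ℝ) * w ! * (y + w)! := by positivity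
  have := mul_le_mul_of_nonneg_left h3 hpos.le
  push_cast
  nlinarith

lemma one_step_up (n y m : ℕ) (h : (m + 1) * (y + 1) ≤ n + 1) :
    (n - m).choose y * m ≤ (n - (m + 1)).choose y * (m + 1) := by
  have h0 : m + y ≤ n := by nlinarith [Nat.zero_le (m * y)]
  obtain ⟨w, rfl⟩ : ∃ w, n = m + (y + w) := ⟨n - m - y, by omega⟩
  rcases w with _ | w
  · have : m * y = 0 := by nlinarith
    rcases Nat.mul_eq_zero.1 this with rfl | rfl <;> simp
  rw [show m + (y + (w + 1)) - m = (y + w) + 1 by omega,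
    show m + (y + (w + 1)) - (m + 1) = y + w by omega]
  have e := Nat.choose_mul_succ_eq (y + w) y
  rw [show y + w + 1 - y = w + 1 by omega] at e
  have h2 : (y + w + 1) * m ≤ (w + 1) * (m + 1) := by nlinarith
  refine Nat.le_of_mul_le_mul_right (c := w + 1) ?_ (by omega)
  calc _ = ((y + w + 1).choose y * (w + 1)) * m := by ring
    _ = (y + w).choose y * ((y + w + 1) * m) := by rw [← e]; ring
    _ ≤ (y + w).choose y * ((w + 1) * (m + 1)) := Nat.mul_le_mul_left _ h2
    _ = _ := by ring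

lemma one_step_down (n y m : ℕ) (hy : 0 < y) (h : n + 1 ≤ (m + 1) * (y + 1)) :
    (n - (m + 1)).choose y * (m + 1) ≤ (n - m).choose y * m := by
  rcases Nat.lt_or_ge (n - (m + 1)) y with h0 | h0
  · simp [Nat.choose_eq_zero_of_lt h0]
  obtain ⟨w, rfl⟩ : ∃ w, n = m + (y + (w + 1)) := ⟨n - m - y - 1, by omega⟩
  rw [show m + (y + (w + 1)) - m = (y + w) + 1 by omega,
    show m + (y + (w + 1)) - (m + 1) = y + w by omega]
  have e := Nat.choose_mul_succ_eq (y + w) y
  rw [show y + w + 1 - y = w + 1 by omega] at e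
  have h2 : (w + 1) * (m + 1) ≤ (y + w + 1) * m := by nlinarith
  refine Nat.le_of_mul_le_mul_right (c := w + 1) ?_ (by omega)
  calc _ = (y + w).choose y * ((w + 1) * (m + 1)) := by ring
    _ ≤ (y + w).choose y * ((y + w + 1) * m) := Nat.mul_le_mul_left _ h2
    _ = ((y + w + 1).choose y * (w + 1)) * m := by rw [← e]; ring
    _ = _ := by ring

lemma one_max (n y a : ℕ) (hy : 0 < y) :
    (n - a).choose y * a ≤ (n - n / (y + 1)).choose y * (n / (y + 1)) := by
  have e := Nat.div_add_mod n (y + 1)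
  have e2 := Nat.mod_lt n (show 0 < y + 1 by omega)
  generalize n / (y + 1) = m at *
  generalize n % (y + 1) = t at *
  rcases le_total a m with h | h
  · have : ∀ i, a + i ≤ m → (n - a).choose y * a ≤ (n - (a + i)).choose y * (a + i) := by
      intro i
      induction i with
      | zero => simp
      | succ i ih =>
        intro hi
        refine (ih (by omega)).trans (one_step_up n y (a + i) ?_)
        have : (a + i + 1) * (y + 1) ≤ m * (y + 1) := Nat.mul_le_mul_right _ hi
        nlinarith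
    have h2 := this (m - a) (by omega)
    rwa [show a + (m - a) = m by omega] at h2
  · have : ∀ i, (n - (m + i)).choose y * (m + i) ≤ (n - m).choose y * m := by
      intro i
      induction i with
      | zero => simp
      | succ i ih =>
        refine (one_step_down n y (m + i) hy ?_).trans ih
        have : (m + 1) * (y + 1) ≤ (m + i + 1) * (y + 1) := Nat.mul_le_mul_right _ (by omega)
        nlinarith
    have h2 := this (a - m)
    rwa [show m + (a - m) = a by omega] at h2

theorem main_ineq (n r a j : ℕ) (hr : 4 ≤ r) (hn : 2 * r < n) (ha : a ≤ n) (hj : 1 ≤ j)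
    (hjr : j < r) :
    a.choose j * (n - a).choose (r - j) ≤ (n - n / r).choose (r - 1) * (n / r) := by
  obtain ⟨Y, rfl⟩ : ∃ Y, r = Y + 1 := ⟨r - 1, by omega⟩
  rcases Nat.eq_or_lt_of_le hj with rfl | hj2
  · simpa [mul_comm] using one_max n Y a (by omega)
  rcases Nat.eq_or_lt_of_le (show j ≤ Y by omega) with rfl | hj3
  · have := one_max n j (n - a) (by omega)
    rw [show n - (n - a) = a by omega] at this
    simpa using this
  rcases Nat.lt_or_ge a j with h0 | h0
  · simp [Nat.choose_eq_zero_of_lt h0]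
  rcases Nat.lt_or_ge (n - a) (Y + 1 - j) with h1 | h1
  · simp [Nat.choose_eq_zero_of_lt h1]
  by_cases hsm : n < 24 ∧ Y + 1 < 10
  · have := chk4 n hsm.1 (Y + 1) hsm.2 j (by omega) a (by omega) hr hn (by omega) (by omega) ha
    simpa only [ch_eq] using this
  obtain ⟨z, rfl⟩ : ∃ z, a = j + z := ⟨a - j, by omega⟩
  obtain ⟨y, hy⟩ : ∃ y, Y + 1 = j + y := ⟨Y + 1 - j, by omega⟩
  obtain ⟨w, hw⟩ : ∃ w, n = j + y + z + w := ⟨n - (j + y + z), by omega⟩
  have e := Nat.div_add_mod n (Y + 1)
  have e2 := Nat.mod_lt n (show 0 < Y + 1 by omega)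
  have e3 : 2 ≤ n / (Y + 1) := (Nat.le_div_iff_mul_le (by omega)).2 hn.le
  have e4 : n < 3 * (Y + 1) → n / (Y + 1) < 3 := fun h =>
    (Nat.div_lt_iff_lt_mul (by omega)).2 h
  generalize n / (Y + 1) = m at *
  generalize n % (Y + 1) = t at *
  obtain ⟨Z, rfl⟩ : ∃ Z, m = Z + 1 := ⟨m - 1, by omega⟩
  have en : n = 1 + Y + Z + (Z * Y + t) := by rw [← e]; ring
  have hP : P j y z w ≤ P 1 Y Z (Z * Y + t) := by
    have hl := low Y Z t (by omega)
    by_cases hY : Y + 1 < 10
    · have := upper3 j y z w (by omega) (by omega) (by omega) (by omega)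
      rw [← hy, show Y + 1 - 1 = Y by omega] at this
      exact this.trans hl
    by_cases h3 : n < 3 * (Y + 1)
    · obtain rfl : Z = 1 := by have := e4 h3; omega
      exact (upper1 j y z w (by omega) (by omega) (by omega) (by omega)).trans
        (low_two Y _ (by omega) (by omega))
    · exact (upper2 j y z w (by omega) (by omega) (by omega) (by omega)).trans
        ((low_e Y (by omega)).trans hl)
  have c1 := choose_eq j y z w
  have c2 := choose_eq 1 Y Z (Z * Y + t)
  rw [← hw, ← hy] at c1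
  rw [← en, show 1 + Y = Y + 1 by ring, Nat.choose_one_right] at c2
  rw [show n - (j + z) = y + w by omega, show Y + 1 - j = y by omega,
    show n - (Z + 1) = Y + (Z * Y + t) by omega, show Y + 1 - 1 = Y by omega]
  have hc : (0 : ℝ) ≤ (n.choose (Y + 1) : ℕ) := by positivity
  have := mul_le_mul_of_nonneg_right hP hc
  rw [← c1, ← c2] at this
  have h5 : (j + z).choose j * (y + w).choose y ≤ (1 + Z) * (Y + (Z * Y + t)).choose Y := by
    exact_mod_cast this
  calc _ ≤ _ := h5
    _ = _ := by ring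

end Pool.Agent.H.MP_604c02_co
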