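import Mathlib

set_option autoImplicit false

namespace Pool.Agent.H.MP_604c02_co

open Finset

variable {α : Type*} [DecidableEq α]

lemma up_step (S : Finset α) (j : ℕ) (p q : Finset α → Prop) [DecidablePred p] [DecidablePred q]
    (h : ∀ X, ∀ x ∈ S, x ∉ X → p X → q (insert x X)) :
    #((powersetCard j S).filter p) * (#S - j) ≤ #((powersetCard (j + 1) S).filter q) * (j + 1) := by
  refine card_mul_le_card_mul (fun X Y => X ⊆ Y) ?_ ?_
  · intro X hX
    rw [mem_filter, mem_powersetCard] at hX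
    obtain ⟨⟨hXS, hXj⟩, hp⟩ := hX
    rw [← hXj, ← card_sdiff_of_subset hXS]
    refine card_le_card_of_injOn (fun x => insert x X) ?_ ?_
    · intro x hx
      simp only [coe_sdiff, Set.mem_diff, mem_coe] at hx
      simp only [mem_coe, mem_bipartiteAbove, mem_filter, mem_powersetCard]
      exact ⟨⟨⟨insert_subset hx.1 hXS, card_insert_of_notMem hx.2⟩, h X x hx.1 hx.2 hp⟩,
        subset_insert _ _⟩
    · intro x hx y hy hxy
      simp only [coe_sdiff, Set.mem_diff, mem_coe] at hx hy
      have : x ∈ insert y X := by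
        have h2 : insert x X = insert y X := hxy
        rw [← h2]
        exact mem_insert_self _ _
      rcases mem_insert.1 this with h1 | h1
      · exact h1
      · exact absurd h1 hx.2
  · intro Y hY
    rw [mem_filter, mem_powersetCard] at hY
    have : ((powersetCard j S).filter p).bipartiteBelow (fun X Y => X ⊆ Y) Y ⊆
        powersetCard j Y := by
      intro X hX
      simp only [mem_bipartiteBelow, mem_filter, mem_powersetCard] at hX ⊢
      exact ⟨hX.2, hX.1.1.2⟩
    refine (card_le_card this).trans ?_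
    rw [card_powersetCard, hY.1.2, Nat.choose_succ_self_right]

lemma down_step (S : Finset α) (j : ℕ) (p q : Finset α → Prop) [DecidablePred p]
    [DecidablePred q] (h : ∀ X, ∀ x ∈ S, x ∉ X → q (insert x X) → p X) :
    #((powersetCard (j + 1) S).filter q) * (j + 1) ≤ #((powersetCard j S).filter p) * (#S - j) := by
  have h1 := up_step S j (fun X => ¬ p X) (fun X => ¬ q X)
    (fun X x hx hxX hp hq => hp (h X x hx hxX hq))
  have e1 := card_filter_add_card_filter_not (s := powersetCard j S) p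
  have e2 := card_filter_add_card_filter_not (s := powersetCard (j + 1) S) q
  rw [card_powersetCard] at e1 e2
  have e3 := Nat.choose_succ_right_eq (#S) j
  rw [← e1, ← e2, add_mul, add_mul] at e3
  omega

/-- number of pairs (X, Y), X a j-subset of A, Y a k-subset of B, whose total weight satisfies R -/
def cnt (A B : Finset α) (f : α → ℚ) (R : ℚ → Prop) [DecidablePred R] (j k : ℕ) : ℕ :=
  #((powersetCard j A ×ˢ powersetCard k B).filter
    (fun t => R (∑ x ∈ t.1, f x + ∑ y ∈ t.2, f y)))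

lemma cnt_left (A B : Finset α) (f : α → ℚ) (R : ℚ → Prop) [DecidablePred R] (j k : ℕ) :
    cnt A B f R j k = ∑ Y ∈ powersetCard k B,
      #((powersetCard j A).filter (fun X => R (∑ x ∈ X, f x + ∑ y ∈ Y, f y))) := by
  unfold cnt
  simp only [card_filter]
  rw [sum_product_right]

lemma cnt_right (A B : Finset α) (f : α → ℚ) (R : ℚ → Prop) [DecidablePred R] (j k : ℕ) :
    cnt A B f R j k = ∑ X ∈ powersetCard j A,
      #((powersetCard k B).filter (fun Y => R (∑ x ∈ X, f x + ∑ y ∈ Y, f y))) := by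
  unfold cnt
  simp only [card_filter]
  rw [sum_product]

lemma cnt_split (A B : Finset α) (f : α → ℚ) (j k : ℕ) :
    cnt A B f (fun s => 0 ≤ s) j k = cnt A B f (fun s => 0 < s) j k + cnt A B f (fun s => s = 0) j k := by
  unfold cnt
  simp only [card_filter]
  rw [← sum_add_distrib]
  refine sum_congr rfl fun t _ => ?_
  rcases lt_trichotomy 0 (∑ x ∈ t.1, f x + ∑ y ∈ t.2, f y) with h | h | h
  · simp [h, h.le, h.ne']
  · simp [← h]
  · simp [h.not_gt, h.not_ge, h.ne]

lemma cnt_le (A B : Finset α) (f : α → ℚ) (R : ℚ → Prop) [DecidablePred R] (j k : ℕ) :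
    cnt A B f R j k ≤ (#A).choose j * (#B).choose k := by
  unfold cnt
  refine (card_filter_le _ _).trans ?_
  rw [card_product, card_powersetCard, card_powersetCard]

lemma step1 (A B : Finset α) (f : α → ℚ) (hA : ∀ x ∈ A, 0 < f x) (j k : ℕ) :
    cnt A B f (fun s => 0 ≤ s) j k * (#A - j) ≤ cnt A B f (fun s => 0 < s) (j + 1) k * (j + 1) := by
  rw [cnt_left, cnt_left, sum_mul, sum_mul]
  refine sum_le_sum fun Y _ => up_step A j _ _ ?_
  intro X x hx hxX hp
  rw [sum_insert hxX]
  have := hA x hx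
  linarith

lemma step2 (A B : Finset α) (f : α → ℚ) (hB : ∀ x ∈ B, f x < 0) (j k : ℕ) :
    cnt A B f (fun s => 0 < s) j (k + 1) * (k + 1) ≤ cnt A B f (fun s => 0 < s) j k * (#B - k) := by
  rw [cnt_right, cnt_right, sum_mul, sum_mul]
  refine sum_le_sum fun X _ => down_step B k _ _ ?_
  intro Y y hy hyY hp
  rw [sum_insert hyY] at hp
  have := hB y hy
  linarith

lemma dens_step (A B : Finset α) (f : α → ℚ) (hA : ∀ x ∈ A, 0 < f x) (hB : ∀ x ∈ B, f x < 0)
    (j k : ℕ) (hj : j + 1 ≤ #A) :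
    (cnt A B f (fun s => 0 ≤ s) j (k + 1) : ℚ) / ((#A).choose j * (#B).choose (k + 1) : ℕ) ≤
      (cnt A B f (fun s => 0 < s) (j + 1) k : ℚ) / ((#A).choose (j + 1) * (#B).choose k : ℕ) := by
  rcases Nat.lt_or_ge (#B) (k + 1) with hk | hk
  · rw [Nat.choose_eq_zero_of_lt hk]
    simp only [mul_zero, Nat.cast_zero, div_zero]
    positivity
  have h1 := step1 A B f hA j (k + 1)
  have h2 := step2 A B f hB (j + 1) k
  have e1 := Nat.choose_succ_right_eq (#A) j
  have e2 := Nat.choose_succ_right_eq (#B) k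
  have p1 := Nat.choose_pos (show j ≤ #A by omega)
  have p2 := Nat.choose_pos hj
  have p3 := Nat.choose_pos (show k ≤ #B by omega)
  have p4 := Nat.choose_pos hk
  rw [div_le_div_iff₀ (by positivity) (by positivity)]
  norm_cast
  generalize cnt A B f (fun s => 0 ≤ s) j (k + 1) = V at *
  generalize cnt A B f (fun s => 0 < s) (j + 1) (k + 1) = W at *
  generalize cnt A B f (fun s => 0 < s) (j + 1) k = U at *
  refine Nat.le_of_mul_le_mul_right (c := (j + 1) * (k + 1)) ?_ (by positivity)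
  calc _ = (V * ((#A).choose (j + 1) * (j + 1))) * ((#B).choose k * (k + 1)) := by ring
    _ = (V * (#A - j)) * ((#A).choose j * (#B).choose k * (k + 1)) := by rw [e1]; ring
    _ ≤ (W * (j + 1)) * ((#A).choose j * (#B).choose k * (k + 1)) := Nat.mul_le_mul_right _ h1
    _ = (W * (k + 1)) * ((#A).choose j * (#B).choose k * (j + 1)) := by ring
    _ ≤ (U * (#B - k)) * ((#A).choose j * (#B).choose k * (j + 1)) := Nat.mul_le_mul_right _ h2
    _ = U * ((#B).choose k * (#B - k)) * ((#A).choose j * (j + 1)) := by ring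
    _ = _ := by rw [← e2]; ring

lemma cnt_zero_left (A B : Finset α) (f : α → ℚ) (hB : ∀ x ∈ B, f x < 0) (k : ℕ) (hk : 0 < k) :
    cnt A B f (fun s => s = 0) 0 k = 0 := by
  unfold cnt
  rw [card_eq_zero, filter_eq_empty_iff]
  rintro ⟨X, Y⟩ ht
  simp only [mem_product, mem_powersetCard, card_eq_zero] at ht
  obtain ⟨⟨-, rfl⟩, hY, hYk⟩ := ht
  have : ∑ y ∈ Y, f y < 0 := sum_neg (fun y hy => hB y (hY hy)) (card_pos.1 (by omega))
  simpa using this.ne

lemma cnt_zero_right (A B : Finset α) (f : α → ℚ) (hA : ∀ x ∈ A, 0 < f x) (k : ℕ) (hk : 0 < k) :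
    cnt A B f (fun s => s = 0) k 0 = 0 := by
  unfold cnt
  rw [card_eq_zero, filter_eq_empty_iff]
  rintro ⟨X, Y⟩ ht
  simp only [mem_product, mem_powersetCard, card_eq_zero] at ht
  obtain ⟨⟨hX, hXk⟩, -, rfl⟩ := ht
  have : 0 < ∑ y ∈ X, f y := sum_pos (fun y hy => hA y (hX hy)) (card_pos.1 (by omega))
  simpa using this.ne'

lemma chain (A B : Finset α) (f : α → ℚ) (hA : ∀ x ∈ A, 0 < f x) (hB : ∀ x ∈ B, f x < 0)
    (r M : ℕ) (hr : 0 < r) (hM : ∀ j, 1 ≤ j → j < r → (#A).choose j * (#B).choose (r - j) ≤ M) :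
    ∀ j, j ≤ #A → j ≤ r → ((∑ i ∈ range (j + 1), cnt A B f (fun s => s = 0) i (r - i) : ℕ) : ℚ) ≤
      M * ((cnt A B f (fun s => 0 ≤ s) j (r - j) : ℚ) /
        ((#A).choose j * (#B).choose (r - j) : ℕ)) := by
  intro j
  induction j with
  | zero =>
    intro _ _
    simp only [zero_add, range_one, sum_singleton, Nat.sub_zero, cnt_zero_left A B f hB r hr,
      Nat.cast_zero]
    positivity
  | succ j ih =>
    intro h1 h2
    have h3 := ih (by omega) (by omega)
    obtain ⟨k, hk⟩ : ∃ k, r = j + 1 + k := ⟨r - (j + 1), by omega⟩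
    rw [show r - j = k + 1 by omega] at h3
    have h4 := dens_step A B f hA hB j k h1
    rw [sum_range_succ, show r - (j + 1) = k by omega, cnt_split, Nat.cast_add, Nat.cast_add,
      add_div, mul_add]
    refine add_le_add (h3.trans (mul_le_mul_of_nonneg_left h4 (by positivity))) ?_
    rcases Nat.eq_zero_or_pos (cnt A B f (fun s => s = 0) (j + 1) k) with h0 | h0
    · simp [h0]
    have hk0 : 0 < k := by
      rcases Nat.eq_zero_or_pos k with rfl | h
      · rw [cnt_zero_right A B f hA _ (by omega)] at h0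
        omega
      · exact h
    have h5 := hM (j + 1) (by omega) (by omega)
    rw [show r - (j + 1) = k by omega] at h5
    have h6 := cnt_le A B f (fun s => s = 0) (j + 1) k
    have h7 : (0 : ℚ) < ((#A).choose (j + 1) * (#B).choose k : ℕ) := by
      exact_mod_cast h0.trans_le h6
    rw [mul_div_assoc', le_div_iff₀ h7, mul_comm]
    exact mul_le_mul_of_nonneg_right (by exact_mod_cast h5) (by positivity)

lemma total (A B : Finset α) (f : α → ℚ) (hA : ∀ x ∈ A, 0 < f x) (hB : ∀ x ∈ B, f x < 0)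
    (r M : ℕ) (hr : 0 < r) (hM : ∀ j, 1 ≤ j → j < r → (#A).choose j * (#B).choose (r - j) ≤ M) :
    ∑ i ∈ range (min (#A) r + 1), cnt A B f (fun s => s = 0) i (r - i) ≤ M := by
  have h := chain A B f hA hB r M hr hM (min (#A) r) (min_le_left _ _) (min_le_right _ _)
  have h1 := cnt_le A B f (fun s => 0 ≤ s) (min (#A) r) (r - min (#A) r)
  have h2 : (cnt A B f (fun s => 0 ≤ s) (min (#A) r) (r - min (#A) r) : ℚ) /
      ((#A).choose (min (#A) r) * (#B).choose (r - min (#A) r) : ℕ) ≤ 1 :=
    div_le_one_of_le₀ (by exact_mod_cast h1) (by positivity)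
  have h3 := h.trans (mul_le_mul_of_nonneg_left h2 (by positivity))
  rw [mul_one] at h3
  exact_mod_cast h3

theorem zero_sum_le (S : Finset α) (f : α → ℚ) (hf : ∀ x ∈ S, f x ≠ 0) (r M : ℕ) (hr : 0 < r)
    (hM : ∀ a j, a ≤ #S → 1 ≤ j → j < r → a.choose j * (#S - a).choose (r - j) ≤ M) :
    #((powersetCard r S).filter (fun T => ∑ x ∈ T, f x = 0)) ≤ M := by
  set A := S.filter (fun x => 0 < f x) with hAdef
  set B := S.filter (fun x => ¬ 0 < f x) with hBdef
  have hA : ∀ x ∈ A, 0 < f x := fun x hx => (mem_filter.1 hx).2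
  have hB : ∀ x ∈ B, f x < 0 := fun x hx =>
    lt_of_le_of_ne (not_lt.1 (mem_filter.1 hx).2) (hf x (mem_filter.1 hx).1)
  have hc : #A + #B = #S := card_filter_add_card_filter_not _
  refine le_trans ?_ (total A B f hA hB r M hr fun j h1 h2 => ?_)
  swap
  · have := hM (#A) j (by omega) h1 h2
    rwa [show #S - #A = #B by omega] at this
  unfold cnt
  refine le_trans ?_ card_biUnion_le
  refine card_le_card_of_injOn
    (fun T => (T.filter (fun x => 0 < f x), T.filter (fun x => ¬ 0 < f x))) ?_ ?_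
  · intro T hT
    simp only [coe_filter, Set.mem_setOf_eq, mem_powersetCard] at hT
    obtain ⟨⟨hTS, hTr⟩, h0⟩ := hT
    have h1 : T.filter (fun x => 0 < f x) ⊆ A := filter_subset_filter _ hTS
    have h2 : T.filter (fun x => ¬ 0 < f x) ⊆ B := filter_subset_filter _ hTS
    have h3 := card_filter_add_card_filter_not (s := T) (fun x => 0 < f x)
    have h4 := card_le_card h1
    simp only [mem_coe, mem_biUnion, mem_range, mem_filter, mem_product, mem_powersetCard]
    refine ⟨#(T.filter (fun x => 0 < f x)), by omega, ⟨⟨h1, rfl⟩, h2, by omega⟩, ?_⟩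
    rw [sum_filter_add_sum_filter_not]
    exact h0
  · intro T _ T' _ h
    simp only [Prod.mk.injEq] at h
    rw [← filter_union_filter_not_eq (fun x => 0 < f x) T, h.1, h.2, filter_union_filter_not_eq]

lemma exists_fun (S : Finset ℝ) (hS : ∀ a ∈ S, Irrational a) :
    ∃ f : ℝ →ₗ[ℚ] ℚ, (∀ q : ℚ, f q = 0) ∧ ∀ a ∈ S, f a ≠ 0 := by
  let W : Submodule ℚ ℝ := Submodule.span ℚ {1}
  obtain ⟨g, hg⟩ := Module.exists_dual_forall_apply_ne_zero (K := ℚ)
    (fun a : S => W.mkQ (a : ℝ)) (by
      intro a h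
      rw [Submodule.mkQ_apply, Submodule.Quotient.mk_eq_zero, Submodule.mem_span_singleton] at h
      obtain ⟨q, hq⟩ := h
      exact hS a a.2 ⟨q, by simpa using hq⟩)
  refine ⟨g.comp W.mkQ, fun q => ?_, fun a ha => hg ⟨a, ha⟩⟩
  have : W.mkQ (q : ℝ) = 0 := by
    rw [Submodule.mkQ_apply, Submodule.Quotient.mk_eq_zero, Submodule.mem_span_singleton]
    exact ⟨q, by simp⟩
  simp only [LinearMap.comp_apply, this, map_zero]

end Pool.Agent.H.MP_604c02_co
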