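import Mathlib
import Pool.Agent.H.MP_604c02_co.Ineq
import Pool.Agent.H.MP_604c02_co.Lym

set_option autoImplicit false

namespace Pool.Agent.H.MP_604c02_co

open Finset

open Classical in
lemma ncard_eq (A : Finset ℝ) (r : ℕ) :
    {B : Finset ℝ | B ⊆ A ∧ B.card = r ∧ ∃ q : ℚ, ∑ b ∈ B, b = (q : ℝ)}.ncard =
      #((powersetCard r A).filter (fun B => ∃ q : ℚ, ∑ b ∈ B, b = (q : ℝ))) := by
  rw [← Set.ncard_coe_finset]
  congr 1
  ext B
  simp [mem_powersetCard, and_assoc]

open Classical in
lemma upper_bound (n r : ℕ) (hr : 4 ≤ r) (hn : 2 * r < n) (A : Finset ℝ) (hA : #A = n)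
    (hirr : ∀ a ∈ A, Irrational a) :
    #((powersetCard r A).filter (fun B => ∃ q : ℚ, ∑ b ∈ B, b = (q : ℝ))) ≤
      (n - n / r).choose (r - 1) * (n / r) := by
  obtain ⟨f, hf0, hf⟩ := exists_fun A hirr
  refine le_trans (card_le_card ?_) (zero_sum_le A f hf r _ (by omega) ?_)
  · intro B hB
    rw [mem_filter] at hB ⊢
    obtain ⟨h1, q, hq⟩ := hB
    refine ⟨h1, ?_⟩
    rw [← map_sum, hq, hf0]
  · intro a j ha h1 h2
    rw [hA] at ha ⊢
    exact main_ineq n r a j hr hn ha h1 h2

open Classical in
lemma construction (m k s : ℕ) (hs : 0 < s) :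
    ∃ A : Finset ℝ, #A = m + k ∧ (∀ a ∈ A, Irrational a) ∧ k.choose s * m ≤
      #((powersetCard (s + 1) A).filter (fun B => ∃ q : ℚ, ∑ b ∈ B, b = (q : ℝ))) := by
  have h2 := irrational_sqrt_two
  set U := (range m).image (fun i : ℕ => (i : ℝ) - s * √2) with hU
  set V := (range k).image (fun i : ℕ => (i : ℝ) + √2) with hV
  have cU : #U = m := by
    rw [hU, card_image_of_injective _ (fun i j h => by simpa using h), card_range]
  have cV : #V = k := by
    rw [hV, card_image_of_injective _ (fun i j h => by simpa using h), card_range]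
  have hd : ∀ u ∈ U, u ∉ V := by
    intro u hu hv
    obtain ⟨i, -, rfl⟩ := mem_image.1 hu
    obtain ⟨j, -, hj⟩ := mem_image.1 hv
    refine h2 ⟨((i : ℚ) - j) / (s + 1), ?_⟩
    push_cast
    field_simp
    linarith
  refine ⟨U ∪ V, ?_, ?_, ?_⟩
  · rw [card_union_of_disjoint (disjoint_left.2 hd), cU, cV]
  · intro a ha
    rcases mem_union.1 ha with h | h
    · obtain ⟨i, -, rfl⟩ := mem_image.1 h
      rintro ⟨q, hq⟩
      refine h2 ⟨((i : ℚ) - q) / s, ?_⟩
      have : (0 : ℝ) < s := by exact_mod_cast hs
      push_cast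
      field_simp
      linarith
    · obtain ⟨i, -, rfl⟩ := mem_image.1 h
      rintro ⟨q, hq⟩
      refine h2 ⟨q - i, ?_⟩
      push_cast
      linarith
  · have : k.choose s * m = #(powersetCard s V ×ˢ U) := by
      rw [card_product, card_powersetCard, cU, cV]
    rw [this]
    refine card_le_card_of_injOn (fun t => insert t.2 t.1) ?_ ?_
    · rintro ⟨T, u⟩ ht
      simp only [coe_product, Set.mem_prod, mem_coe, mem_powersetCard] at ht
      obtain ⟨⟨hT, hTs⟩, hu⟩ := ht
      have huT : u ∉ T := fun h => hd u hu (hT h)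
      simp only [mem_coe, mem_filter, mem_powersetCard]
      refine ⟨⟨insert_subset (mem_union_left _ hu) (hT.trans subset_union_right),
        by rw [card_insert_of_notMem huT, hTs]⟩, ?_⟩
      rw [sum_insert huT]
      obtain ⟨i, -, rfl⟩ := mem_image.1 hu
      have key : ∀ T : Finset ℝ, T ⊆ V → ∃ q : ℚ, ∑ b ∈ T, b = q + #T * √2 := by
        intro T
        induction T using Finset.induction_on with
        | empty => exact fun _ => ⟨0, by simp⟩
        | insert a T haT ih =>
          intro h
          obtain ⟨q, hq⟩ := ih ((subset_insert _ _).trans h)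
          obtain ⟨j, -, rfl⟩ := mem_image.1 (h (mem_insert_self _ _))
          refine ⟨q + j, ?_⟩
          rw [sum_insert haT, card_insert_of_notMem haT, hq]
          push_cast
          ring
      obtain ⟨q, hq⟩ := key T hT
      refine ⟨q + i, ?_⟩
      rw [hq, hTs]
      push_cast
      ring
    · rintro ⟨T, u⟩ ht ⟨T', u'⟩ ht' h
      simp only [coe_product, Set.mem_prod, mem_coe, mem_powersetCard] at ht ht'
      have h' : insert u T = insert u' T' := h
      have huT : u ∉ T := fun h => hd u ht.2 (ht.1.1 h)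
      have huT' : u' ∉ T' := fun h => hd u' ht'.2 (ht'.1.1 h)
      have hu : u = u' := by
        have : u ∈ insert u' T' := h' ▸ mem_insert_self _ _
        rcases mem_insert.1 this with h1 | h1
        · exact h1
        · exact absurd (ht'.1.1 h1) (hd u ht.2)
      subst hu
      have := congrArg (fun X => X.erase u) h'
      simp only [erase_insert huT, erase_insert huT'] at this
      rw [this]

end Pool.Agent.H.MP_604c02_co
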